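import Mathlib

/-!
# The core lemma of the Kalorkoti generator

`F` a field of characteristic 0, `W` a commutative domain over `F`, `p : Fin L → W`
algebraically independent over `F`, and `P(Y) = ∑_j p_j Y^j`.  A non-zero polynomial `f` in `b`
variables over `W`, all of whose coefficients are algebraic over `F[g_1, …, g_t]`, does not vanish
at `P(Y), P(Y + 1), …, P(Y + b - 1)` in `W[Y]`, as soon as `t + b ≤ L`.

Proof.  Put `z_i = P(Y + i)`.  If `f(z_0, …, z_{b-1}) = 0`, then some `z_j`, `j < b`, is algebraic
over `F(g, z_0, …, z_{j-1})`.  The automorphism `Y ↦ Y + 1` fixes `g` and shifts `z`, so all `z_i`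
are algebraic over `F(g, z_0, …, z_{j-1})`, a field of transcendence degree at most
`t + j < t + b ≤ L` over `F`.  But `z_0, …, z_{L-1}` are algebraically independent over `F`, as
one sees at `Y = 0`, where they are the images of `p_0, …, p_{L-1}` under the Vandermonde matrix.
-/

open Polynomial

namespace Pool.H22.KG

section general

variable {F B A : Type*} [Field F] [CommRing B] [CommRing A] [Algebra F B] [Algebra F A]

/-- Algebraicity over a generated subalgebra is transported by injective homomorphisms. -/
theorem isAlgebraic_map (φ : B →ₐ[F] A) (hφ : Function.Injective φ) {s : Set B} {x : B}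
    (h : IsAlgebraic (Algebra.adjoin F s) x) : IsAlgebraic (Algebra.adjoin F (φ '' s)) (φ x) := by
  have hmem : ∀ y : Algebra.adjoin F s, φ y ∈ Algebra.adjoin F (φ '' s) := by
    intro y
    rw [← AlgHom.map_adjoin]
    exact Subalgebra.mem_map.mpr ⟨y, y.2, rfl⟩
  let f : Algebra.adjoin F s →ₐ[F] Algebra.adjoin F (φ '' s) :=
    (φ.comp (Algebra.adjoin F s).val).codRestrict _ hmem
  have hf : Function.Injective f := by
    intro a b hab
    have h1 : (f a : A) = (f b : A) := congrArg Subtype.val hab
    have h2 : φ (a : B) = φ (b : B) := h1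
    exact Subtype.ext (hφ h2)
  exact h.ringHom_of_comp_eq (f : Algebra.adjoin F s →+* Algebra.adjoin F (φ '' s)) (φ : B →+* A)
    hf (by ext y; rfl)

end general

section matroid

variable {F A : Type*} [Field F] [CommRing A] [IsDomain A] [Algebra F A]

open AlgebraicIndependent

theorem mem_closure_iff {s : Set A} {x : A} :
    x ∈ (matroid F A).closure s ↔ IsAlgebraic (Algebra.adjoin F s) x := by
  rw [matroid_closure_eq]; rfl

/-- A sequence that is never in the closure of its past is algebraically independent. -/
theorem indep_of_not_mem {b : ℕ} (z : Fin b → A) (G : Set A)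
    (hG : (matroid F A).Indep G)
    (h : ∀ j : Fin b, z j ∉ (matroid F A).closure (G ∪ z '' {i | i < j})) :
    AlgebraicIndependent (Algebra.adjoin F G) z := by
  classical
  let x : Fin b ⊕ G → A := Sum.elim z (fun y => (y : A))
  have key : ∀ k : ℕ, k ≤ b → AlgebraicIndepOn F x (Sum.inr '' Set.univ ∪
      Sum.inl '' {i : Fin b | (i : ℕ) < k}) := by
    intro k
    induction k with
    | zero =>
      intro _
      have h0 : (Sum.inr '' Set.univ ∪ Sum.inl '' {i : Fin b | (i : ℕ) < 0} : Set (Fin b ⊕ G))
          = Sum.inr '' Set.univ := by simp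
      rw [h0]
      have h1 : AlgebraicIndependent F (fun y : G => (y : A)) := hG
      have := AlgebraicIndependent.image_of_comp (R := F) (A := A) (Set.univ : Set G)
        (Sum.inr : G → Fin b ⊕ G) x (by
          exact h1.comp (fun y : (Set.univ : Set G) => (y : G)) Subtype.val_injective)
      exact this
    | succ k ih =>
      intro hk
      have ih' := ih (by omega)
      let kk : Fin b := ⟨k, by omega⟩
      have h0 : (Sum.inr '' Set.univ ∪ Sum.inl '' {i : Fin b | (i : ℕ) < k + 1} :
            Set (Fin b ⊕ G))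
          = insert (Sum.inl kk) (Sum.inr '' Set.univ ∪ Sum.inl '' {i : Fin b | (i : ℕ) < k}) := by
        ext (i | y)
        · simp only [Set.image_univ, Set.mem_union, Set.mem_range, reduceCtorEq, exists_false,
            Set.mem_image, Set.mem_ofPred_eq, Sum.inl.injEq, exists_eq_right, false_or,
            Set.mem_insert_iff]
          constructor
          · intro hi
            rcases Nat.lt_succ_iff_lt_or_eq.mp hi with h | h
            · exact Or.inr h
            · exact Or.inl (Fin.ext h)
          · rintro (h | h)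
            · rw [h]; exact Nat.lt_succ_self k
            · omega
        · simp
      rw [h0]
      refine AlgebraicIndepOn.insert ih' ?_
      have himg : x '' (Sum.inr '' Set.univ ∪ Sum.inl '' {i : Fin b | (i : ℕ) < k})
          = G ∪ z '' {i | i < kk} := by
        rw [Set.image_union, Set.image_image, Set.image_image]
        congr 1
        simp [x]
      rw [himg]
      intro halg
      exact h kk (mem_closure_iff.mpr halg)
  have hall := key b le_rfl
  have huniv : (Sum.inr '' Set.univ ∪ Sum.inl '' {i : Fin b | (i : ℕ) < b} : Set (Fin b ⊕ G))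
      = Set.univ := by
    ext (i | y) <;> simp
  rw [huniv] at hall
  have hx : AlgebraicIndependent F x := AlgebraicIndepOn.univ.mp hall
  have h2 := (AlgebraicIndependent.sumElim_iff.mp hx).2
  have hr : Set.range (fun y : G => (y : A)) = G := Subtype.range_coe
  rw [hr] at h2
  exact h2

/-- A polynomial relation with coefficients in the closure of `G` puts some element of the
sequence into the closure of `G` and its past. -/
theorem exists_mem_closure {W : Type*} [CommRing W] [Algebra W A]
    (hinj : Function.Injective (algebraMap W A)) {b : ℕ} (z : Fin b → A) (G : Set A)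
    (f : MvPolynomial (Fin b) W) (hf : f ≠ 0)
    (hC : ∀ m, algebraMap W A (f.coeff m) ∈ (matroid F A).closure G)
    (h0 : MvPolynomial.aeval z f = 0) :
    ∃ j : Fin b, z j ∈ (matroid F A).closure (G ∪ z '' {i | i < j}) := by
  classical
  by_contra hcon
  push Not at hcon
  obtain ⟨G0, hG0⟩ := (matroid F A).exists_isBasis G
  have hcl : (matroid F A).closure G0 = (matroid F A).closure G := hG0.closure_eq_closure
  have h1 : ∀ j : Fin b, z j ∉ (matroid F A).closure (G0 ∪ z '' {i | i < j}) := by
    intro j hj
    refine hcon j ?_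
    rwa [Matroid.closure_union_congr_left hcl] at hj
  have hind := indep_of_not_mem z G0 hG0.indep h1
  have hind2 := hind.subalgebraAlgebraicClosure
  have hmem : ∀ m, algebraMap W A (f.coeff m) ∈
      Subalgebra.algebraicClosure (Algebra.adjoin F G0) A := by
    intro m
    have := hC m
    rw [← hcl, matroid_closure_eq] at this
    exact this
  let f1 : MvPolynomial (Fin b) (Subalgebra.algebraicClosure (Algebra.adjoin F G0) A) :=
    ∑ m ∈ f.support, MvPolynomial.monomial m ⟨algebraMap W A (f.coeff m), hmem m⟩
  have hf1 : MvPolynomial.aeval z f1 = 0 := by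
    rw [← h0]
    conv_rhs => rw [f.as_sum]
    rw [map_sum, map_sum]
    refine Finset.sum_congr rfl fun m _ => ?_
    rw [MvPolynomial.aeval_monomial, MvPolynomial.aeval_monomial]
    rfl
  have hf0 : f1 = 0 := hind2.eq_zero_of_aeval_eq_zero f1 hf1
  obtain ⟨m, hm⟩ := MvPolynomial.ne_zero_iff.mp hf
  have hms : m ∈ f.support := MvPolynomial.mem_support_iff.mpr hm
  have hc : MvPolynomial.coeff m f1 = ⟨algebraMap W A (f.coeff m), hmem m⟩ := by
    simp only [f1, MvPolynomial.coeff_sum, MvPolynomial.coeff_monomial]
    rw [Finset.sum_ite_eq' f.support m]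
    simp [hms]
  rw [hf0, MvPolynomial.coeff_zero] at hc
  have h2 : algebraMap W A (f.coeff m) = 0 := (congrArg Subtype.val hc).symm
  exact hm (hinj (by rw [h2, map_zero]))

/-- Closure under an injective endomorphism which maps `S` into its own closure. -/
theorem closure_of_map (σ : A →ₐ[F] A) (hσ : Function.Injective σ) {S : Set A}
    (hS : ∀ s ∈ S, σ s ∈ (matroid F A).closure S) {x : A} (hx : x ∈ (matroid F A).closure S) :
    σ x ∈ (matroid F A).closure S := by
  have h1 : σ x ∈ (matroid F A).closure (σ '' S) :=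
    mem_closure_iff.mpr (isAlgebraic_map σ hσ (mem_closure_iff.mp hx))
  have h2 : (matroid F A).closure (σ '' S) ⊆ (matroid F A).closure S := by
    refine Matroid.closure_subset_closure_of_subset_closure ?_
    rintro _ ⟨s, hs, rfl⟩
    exact hS s hs
  exact h2 h1

end matroid

/-! ### The shifted polynomials -/

section shift

variable {F W : Type*} [Field F] [CommRing W] [IsDomain W] [Algebra F W]

/-- `z_i = P(Y + i)`, `P = ∑_{j < L} p_j Y^j`. -/
noncomputable def zpoly {L : ℕ} (p : Fin L → W) (i : ℕ) : W[X] :=
  ∑ j : Fin L, C (p j) * (X + C (i : W)) ^ (j : ℕ)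

/-- The substitution `Y ↦ Y + 1`. -/
noncomputable def shiftHom (F W : Type*) [Field F] [CommRing W] [Algebra F W] : W[X] →ₐ[F] W[X] :=
  (Polynomial.aeval (X + C (1 : W)) : W[X] →ₐ[W] W[X]).restrictScalars F

omit [IsDomain W] in
theorem shiftHom_C (c : W) : shiftHom F W (C c) = C c := by
  simp [shiftHom]

omit [IsDomain W] in
theorem shiftHom_X : shiftHom F W X = X + C 1 := by
  simp [shiftHom]

omit [IsDomain W] in
theorem shiftHom_injective : Function.Injective (shiftHom F W) := by
  let τ : W[X] →ₐ[W] W[X] := Polynomial.aeval (X - C (1 : W))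
  have h : ∀ q : W[X], τ (shiftHom F W q) = q := by
    intro q
    have h1 : τ.comp (Polynomial.aeval (X + C (1 : W)) : W[X] →ₐ[W] W[X]) = AlgHom.id W W[X] := by
      apply Polynomial.algHom_ext
      simp [τ]
    have h2 := congrArg (fun φ : W[X] →ₐ[W] W[X] => φ q) h1
    exact h2
  exact Function.LeftInverse.injective h

omit [IsDomain W] in
theorem shiftHom_zpoly {L : ℕ} (p : Fin L → W) (i : ℕ) :
    shiftHom F W (zpoly p i) = zpoly p (i + 1) := by
  unfold zpoly
  rw [map_sum]
  refine Finset.sum_congr rfl fun j _ => ?_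
  rw [map_mul, map_pow, map_add, shiftHom_C, shiftHom_C, shiftHom_X]
  congr 2
  rw [Nat.cast_succ, C_add]
  ring

end shift

/-! ### Independence of the first `L` shifts -/

section vandermonde

variable {F W : Type*} [Field F] [CharZero F] [CommRing W] [Algebra F W]

omit [CharZero F] in
/-- An invertible linear change of an algebraically independent family. -/
theorem indep_of_linear {L : ℕ} (p : Fin L → W) (hp : AlgebraicIndependent F p)
    (V : Matrix (Fin L) (Fin L) F) (hV : IsUnit V.det) :
    AlgebraicIndependent F (fun i : Fin L => ∑ j : Fin L, algebraMap F W (V i j) * p j) := by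
  classical
  let τ : MvPolynomial (Fin L) F →ₐ[F] MvPolynomial (Fin L) F :=
    MvPolynomial.aeval (fun i => ∑ j : Fin L, MvPolynomial.C (V i j) * MvPolynomial.X j)
  let τ' : MvPolynomial (Fin L) F →ₐ[F] MvPolynomial (Fin L) F :=
    MvPolynomial.aeval (fun i => ∑ j : Fin L, MvPolynomial.C (V⁻¹ i j) * MvPolynomial.X j)
  have hcomp : τ'.comp τ = AlgHom.id F _ := by
    apply MvPolynomial.algHom_ext
    intro i
    simp only [AlgHom.comp_apply, τ, τ', MvPolynomial.aeval_X, map_sum, map_mul,
      MvPolynomial.aeval_C, AlgHom.id_apply, MvPolynomial.algebraMap_eq]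
    simp only [Finset.mul_sum, ← mul_assoc, ← map_mul]
    rw [Finset.sum_comm]
    simp only [← Finset.sum_mul, ← map_sum]
    have h1 : ∀ k : Fin L, ∑ j : Fin L, V i j * V⁻¹ j k = (1 : Matrix (Fin L) (Fin L) F) i k := by
      intro k
      rw [← Matrix.mul_nonsing_inv V hV, Matrix.mul_apply]
    simp only [h1, Matrix.one_apply]
    rw [Finset.sum_eq_single i]
    · simp
    · intro k _ hk
      simp [Ne.symm hk]
    · simp
  have hτ : Function.Injective τ := by
    refine Function.LeftInverse.injective (g := τ') fun q => ?_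
    exact congrArg (fun φ : MvPolynomial (Fin L) F →ₐ[F] MvPolynomial (Fin L) F => φ q) hcomp
  rw [algebraicIndependent_iff_injective_aeval] at hp ⊢
  have h2 : MvPolynomial.aeval (fun i : Fin L => ∑ j : Fin L, algebraMap F W (V i j) * p j)
      = (MvPolynomial.aeval p).comp τ := by
    apply MvPolynomial.algHom_ext
    intro i
    simp [τ]
  rw [h2]
  exact hp.comp hτ

theorem indep_zpoly [IsDomain W] {L : ℕ} (p : Fin L → W) (hp : AlgebraicIndependent F p) :
    AlgebraicIndependent F (fun i : Fin L => zpoly p (i : ℕ)) := by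
  classical
  let e : W[X] →ₐ[F] W := (Polynomial.aeval (0 : W) : W[X] →ₐ[W] W).restrictScalars F
  refine AlgebraicIndependent.of_comp e ?_
  let V : Matrix (Fin L) (Fin L) F := Matrix.vandermonde (fun i : Fin L => ((i : ℕ) : F))
  have hV : IsUnit V.det := by
    rw [isUnit_iff_ne_zero]
    refine Matrix.det_vandermonde_ne_zero_iff.mpr ?_
    intro a b hab
    exact Fin.ext (Nat.cast_injective hab)
  have h1 : (e ∘ fun i : Fin L => zpoly p (i : ℕ))
      = fun i : Fin L => ∑ j : Fin L, algebraMap F W (V i j) * p j := by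
    funext i
    simp only [Function.comp_apply, zpoly, map_sum]
    refine Finset.sum_congr rfl fun j _ => ?_
    simp [e, V, Matrix.vandermonde_apply, mul_comm]
  rw [h1]
  exact indep_of_linear p hp V hV

end vandermonde

/-! ### The core lemma -/

section core

open AlgebraicIndependent

variable {F W : Type*} [Field F] [CharZero F] [CommRing W] [IsDomain W] [Algebra F W]

/-- **Core lemma, matroid form.**  `f` has its coefficients in the algebraic closure of a set `G`
of at most `t` elements. -/
theorem core_set {L t b : ℕ} (p : Fin L → W) (hp : AlgebraicIndependent F p) (G : Set W)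
    (hG : G.encard ≤ t) (f : MvPolynomial (Fin b) W) (hf : f ≠ 0)
    (hC : ∀ m, IsAlgebraic (Algebra.adjoin F G) (f.coeff m)) (hL : t + b ≤ L) :
    MvPolynomial.aeval (fun i : Fin b => zpoly p (i : ℕ)) f ≠ 0 := by
  classical
  intro h0
  let ι : W →ₐ[F] W[X] := Polynomial.CAlgHom
  have hι : Function.Injective ι := Polynomial.C_injective
  let G' : Set W[X] := ι '' G
  have hCl : ∀ m, algebraMap W W[X] (f.coeff m) ∈ (matroid F W[X]).closure G' := fun m =>
    mem_closure_iff.mpr (isAlgebraic_map ι hι (hC m))
  obtain ⟨j, hj⟩ := exists_mem_closure (F := F) (A := W[X]) (W := W) Polynomial.C_injective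
    (fun i : Fin b => zpoly p (i : ℕ)) G' f hf hCl h0
  have him : (fun i : Fin b => zpoly p (i : ℕ)) '' {i | i < j}
      = (zpoly p) '' {i : ℕ | i < (j : ℕ)} := by
    ext y
    constructor
    · rintro ⟨i, hi, rfl⟩
      exact ⟨(i : ℕ), hi, rfl⟩
    · rintro ⟨i, hi, rfl⟩
      exact ⟨⟨i, lt_trans hi j.2⟩, hi, rfl⟩
  rw [him] at hj
  have hj' : zpoly p (j : ℕ) ∈ (matroid F W[X]).closure
      (G' ∪ (zpoly p) '' {i : ℕ | i < (j : ℕ)}) := hj
  set S : Set W[X] := G' ∪ (zpoly p) '' {i : ℕ | i < (j : ℕ)} with hS
  have hsub : ∀ y ∈ S, y ∈ (matroid F W[X]).closure S := fun y hy =>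
    (matroid F W[X]).mem_closure_of_mem hy (by simp)
  have hshift : ∀ y ∈ S, shiftHom F W y ∈ (matroid F W[X]).closure S := by
    rintro y (⟨g, hg, rfl⟩ | ⟨i, hi, rfl⟩)
    · have h1 : shiftHom F W (ι g) = ι g := shiftHom_C g
      rw [h1]
      exact hsub _ (Or.inl ⟨g, hg, rfl⟩)
    · rw [shiftHom_zpoly]
      have hi' : i < (j : ℕ) := hi
      rcases Nat.lt_or_ge (i + 1) (j : ℕ) with h | h
      · exact hsub _ (Or.inr ⟨i + 1, h, rfl⟩)
      · have h2 : i + 1 = (j : ℕ) := by omega
        rw [h2]; exact hj'
  have hall : ∀ i : ℕ, zpoly p i ∈ (matroid F W[X]).closure S := by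
    intro i
    induction i with
    | zero =>
      rcases Nat.eq_zero_or_pos (j : ℕ) with h | h
      · rw [← h]; exact hj'
      · exact hsub _ (Or.inr ⟨0, h, rfl⟩)
    | succ i ih =>
      rw [← shiftHom_zpoly (F := F)]
      exact closure_of_map (shiftHom F W) shiftHom_injective hshift ih
  have hind := indep_zpoly (F := F) p hp
  have hinj : Function.Injective (fun i : Fin L => zpoly p (i : ℕ)) := hind.injective
  have hI : (matroid F W[X]).Indep (Set.range (fun i : Fin L => zpoly p (i : ℕ))) := by
    rw [matroid_indep_iff]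
    exact hind.coe_range
  have hle : (Set.range (fun i : Fin L => zpoly p (i : ℕ))).encard
      ≤ (matroid F W[X]).eRk ((matroid F W[X]).closure S) := by
    refine hI.encard_le_eRk_of_subset ?_
    rintro _ ⟨i, rfl⟩
    exact hall i
  rw [Matroid.eRk_closure_eq] at hle
  have hle2 := hle.trans ((matroid F W[X]).eRk_le_encard S)
  have hL1 : (Set.range (fun i : Fin L => zpoly p (i : ℕ))).encard = L := by
    rw [← Set.image_univ, hinj.encard_image]
    simp
  have hS1 : S.encard ≤ ((t + (j : ℕ) : ℕ) : ℕ∞) := by
    refine (Set.encard_union_le _ _).trans ?_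
    push_cast
    refine add_le_add ?_ ?_
    · exact (Set.encard_image_le _ _).trans hG
    · refine (Set.encard_image_le _ _).trans ?_
      have : {i : ℕ | i < (j : ℕ)} = ((Finset.range (j : ℕ) : Finset ℕ) : Set ℕ) := by
        ext i; simp
      rw [this, Set.encard_coe_eq_coe_finsetCard, Finset.card_range]
  have h3 : (L : ℕ∞) ≤ ((t + (j : ℕ) : ℕ) : ℕ∞) := by
    rw [← hL1]; exact hle2.trans hS1
  have h4 : L ≤ t + (j : ℕ) := by exact_mod_cast h3
  have := j.2
  omega

/-- **Core lemma, measure form.**  All coefficients of `f` are algebraic over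
`F[g_1, …, g_t]`. -/
theorem core_measure {L t b : ℕ} (p : Fin L → W) (hp : AlgebraicIndependent F p) (g : Fin t → W)
    (f : MvPolynomial (Fin b) W) (hf : f ≠ 0)
    (hC : ∀ m, IsAlgebraic (Algebra.adjoin F (Set.range g)) (f.coeff m)) (hL : t + b ≤ L) :
    MvPolynomial.aeval (fun i : Fin b => zpoly p (i : ℕ)) f ≠ 0 := by
  refine core_set p hp (Set.range g) ?_ f hf hC hL
  rw [← Set.image_univ]
  refine (Set.encard_image_le _ _).trans ?_
  simp

/-- Core lemma for an arbitrary numbering `lam` of the variables by `0, …, b - 1`, in the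
form with a nonzero constant `δ` of the domain: `δ f` instead of `f`. -/
theorem core_index {τ : Type*} {L t b : ℕ} (lam : τ → ℕ) (hinj : Function.Injective lam)
    (hlt : ∀ i, lam i < b) (p : Fin L → W) (hp : AlgebraicIndependent F p) (g : Fin t → W)
    (f : MvPolynomial τ W) (hf : f ≠ 0)
    (hC : ∀ m, IsAlgebraic (Algebra.adjoin F (Set.range g)) (f.coeff m)) (hL : t + b ≤ L) :
    MvPolynomial.aeval (fun i : τ => zpoly p (lam i)) f ≠ 0 := by
  classical
  let lam' : τ → Fin b := fun i => ⟨lam i, hlt i⟩
  have hinj' : Function.Injective lam' := fun a c h => hinj (congrArg Fin.val h)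
  have hne : MvPolynomial.rename lam' f ≠ 0 := by
    intro h
    exact hf ((MvPolynomial.rename_injective lam' hinj') (by rw [h, map_zero]))
  have hC' : ∀ m, IsAlgebraic (Algebra.adjoin F (Set.range g))
      ((MvPolynomial.rename lam' f).coeff m) := by
    intro m
    by_cases hm : (MvPolynomial.rename lam' f).coeff m = 0
    · rw [hm]; exact isAlgebraic_zero
    · obtain ⟨u, hu, -⟩ := MvPolynomial.coeff_rename_ne_zero lam' f m hm
      rw [← hu, MvPolynomial.coeff_rename_mapDomain lam' hinj']
      exact hC u
  have h := core_measure p hp g (MvPolynomial.rename lam' f) hne hC' hL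
  rw [MvPolynomial.aeval_rename] at h
  exact h

/-- **Core lemma, explicit form.**  `Φ` over `F` in the block variables and `t` parameters. -/
theorem core_phi {τ : Type*} {L t b : ℕ} (lam : τ → ℕ) (hinj : Function.Injective lam)
    (hlt : ∀ i, lam i < b) (p : Fin L → W) (hp : AlgebraicIndependent F p) (g : Fin t → W)
    (Φ : MvPolynomial (τ ⊕ Fin t) F)
    (hΦ : (MvPolynomial.aeval (Sum.elim MvPolynomial.X (fun j => MvPolynomial.C (g j))) Φ :
      MvPolynomial τ W) ≠ 0) (hL : t + b ≤ L) :
    (MvPolynomial.aeval (Sum.elim (fun i : τ => zpoly p (lam i)) (fun j => C (g j))) Φ : W[X])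
      ≠ 0 := by
  classical
  set f : MvPolynomial τ W :=
    MvPolynomial.aeval (Sum.elim MvPolynomial.X (fun j => MvPolynomial.C (g j))) Φ with hfdef
  have hmem : ∀ Ψ : MvPolynomial (τ ⊕ Fin t) F, ∀ m,
      (MvPolynomial.aeval (Sum.elim MvPolynomial.X (fun j => MvPolynomial.C (g j))) Ψ :
        MvPolynomial τ W).coeff m ∈ Algebra.adjoin F (Set.range g) := by
    intro Ψ
    induction Ψ using MvPolynomial.induction_on with
    | C a =>
      intro m
      rw [MvPolynomial.aeval_C, IsScalarTower.algebraMap_apply F W (MvPolynomial τ W),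
        MvPolynomial.algebraMap_eq, MvPolynomial.coeff_C]
      split
      · exact Subalgebra.algebraMap_mem _ a
      · exact Subalgebra.zero_mem _
    | add Ψ₁ Ψ₂ h1 h2 =>
      intro m
      rw [map_add, MvPolynomial.coeff_add]
      exact Subalgebra.add_mem _ (h1 m) (h2 m)
    | mul_X Ψ i h =>
      intro m
      rw [map_mul, MvPolynomial.aeval_X]
      rcases i with i | j
      · rw [Sum.elim_inl, MvPolynomial.coeff_mul_X']
        split
        · exact h _
        · exact Subalgebra.zero_mem _
      · rw [Sum.elim_inr, mul_comm, MvPolynomial.coeff_C_mul]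
        exact Subalgebra.mul_mem _ (Algebra.subset_adjoin ⟨j, rfl⟩) (h m)
  have hC : ∀ m, IsAlgebraic (Algebra.adjoin F (Set.range g)) (f.coeff m) := fun m =>
    isAlgebraic_algebraMap (⟨f.coeff m, hmem Φ m⟩ : Algebra.adjoin F (Set.range g))
  have h := core_index lam hinj hlt p hp g f hΦ hC hL
  have hcomp : (MvPolynomial.aeval (fun i : τ => zpoly p (lam i)) f : W[X])
      = MvPolynomial.aeval (Sum.elim (fun i : τ => zpoly p (lam i)) (fun j => C (g j))) Φ := by
    have h1 : ((MvPolynomial.aeval (fun i : τ => zpoly p (lam i)) :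
          MvPolynomial τ W →ₐ[W] W[X]).restrictScalars F).comp
        (MvPolynomial.aeval (Sum.elim MvPolynomial.X (fun j => MvPolynomial.C (g j))) :
          MvPolynomial (τ ⊕ Fin t) F →ₐ[F] MvPolynomial τ W)
        = MvPolynomial.aeval (Sum.elim (fun i : τ => zpoly p (lam i)) (fun j => C (g j))) := by
      apply MvPolynomial.algHom_ext
      rintro (i | j)
      · simp
      · simp
    exact congrArg (fun φ : MvPolynomial (τ ⊕ Fin t) F →ₐ[F] W[X] => φ Φ) h1
  rw [← hcomp]
  exact h

/-- **Single variable.**  For `L ≥ 2` and `p_{L-1} ≠ 0` the polynomial `P(Y + i)` is transcendental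
over all of `W`. -/
theorem single {L : ℕ} (hL : 2 ≤ L) (p : Fin L → W) (hp : AlgebraicIndependent F p) (i : ℕ)
    (f : W[X]) (hf : f ≠ 0) : Polynomial.aeval (zpoly p i) f ≠ 0 := by
  intro h0
  have h1 : f.comp (zpoly p i) = 0 := by
    rw [Polynomial.comp_eq_aeval]; exact h0
  rcases Polynomial.comp_eq_zero_iff.mp h1 with h2 | ⟨-, h2⟩
  · exact hf h2
  · have h3 : ∀ k : ℕ, zpoly p k = C ((zpoly p i).coeff 0) → zpoly p 0 = C ((zpoly p i).coeff 0) := by
      intro k
      induction k with
      | zero => exact fun h => h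
      | succ k ih =>
        intro h
        refine ih (shiftHom_injective (F := F) ?_)
        rw [shiftHom_zpoly, h, shiftHom_C]
    have h4 := h3 i h2
    have h5 : zpoly p 1 = C ((zpoly p i).coeff 0) := by
      have := shiftHom_zpoly (F := F) p 0
      rw [h4, shiftHom_C] at this
      exact this.symm
    have hinj := (indep_zpoly (F := F) p hp).injective
    have h6 : (⟨0, by omega⟩ : Fin L) = ⟨1, by omega⟩ := hinj (by
      show zpoly p 0 = zpoly p 1
      rw [h4, h5])
    exact absurd (congrArg Fin.val h6) (by norm_num)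

end core

end Pool.H22.KG
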